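import Mathlib

set_option autoImplicit false

namespace Pool.Agent.H.MP_23196e_co.A

open Finset Classical

variable {d n : ℕ}

/-- same axis-parallel line -/
def sl (j : Fin d) (x y : Fin d → Fin n) : Prop := ∀ l, l ≠ j → x l = y l

/-- Hamming adjacency -/
def adj (x y : Fin d → Fin n) : Prop := x ≠ y ∧ ∃ j, sl j x y

theorem sl.symm {j : Fin d} {x y : Fin d → Fin n} (h : sl j x y) : sl j y x :=
  fun l hl => (h l hl).symm

theorem sl.trans {j : Fin d} {x y z : Fin d → Fin n} (h : sl j x y) (h' : sl j y z) : sl j x z :=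
  fun l hl => (h l hl).trans (h' l hl)

theorem adj.symm {x y : Fin d → Fin n} (h : adj x y) : adj y x :=
  ⟨h.1.symm, h.2.imp fun _ h => h.symm⟩

theorem sl_uniq {i j : Fin d} {x y : Fin d → Fin n} (h : sl i x y) (h' : sl j x y) (e : x ≠ y) :
    i = j := by
  by_contra hij
  refine e (funext fun l => ?_)
  by_cases hl : l = i
  · exact h' l (hl ▸ hij)
  · exact h l hl

theorem line_card (j : Fin d) (y : Fin d → Fin n) : #(univ.filter fun x => sl j x y) ≤ n := by
  have := card_le_card_of_injOn (s := univ.filter fun x => sl j x y) (t := (univ : Finset (Fin n)))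
    (fun x => x j) (fun _ _ => by simp) (fun x hx x' hx' e => by
      simp only [coe_filter, mem_univ, true_and, Set.mem_ofPred_eq] at hx hx'
      funext l
      by_cases hl : l = j
      · exact hl ▸ e
      · exact (hx l hl).trans (hx' l hl).symm)
  simpa using this

theorem deg_le (y : Fin d → Fin n) : #(univ.filter fun x => adj x y) ≤ d * n := by
  calc _ ≤ #(univ.biUnion fun j : Fin d => univ.filter fun x => sl j x y) :=
        card_le_card fun x hx => by
          obtain ⟨j, hj⟩ := (mem_filter.1 hx).2.2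
          exact mem_biUnion.2 ⟨j, mem_univ _, mem_filter.2 ⟨mem_univ _, hj⟩⟩
    _ ≤ ∑ _j : Fin d, n := card_biUnion_le.trans (sum_le_sum fun j _ => line_card j y)
    _ = d * n := by simp

theorem supersat (B : Finset (Fin d → Fin n)) (D : ℕ) (hd : d = 2 * D) (hn : 0 < n)
    (h : 2 * n ^ d ≤ n * #B) : ∃ x ∈ B, D ≤ #(B.filter fun y => adj x y) := by
  by_contra hc
  push Not at hc
  have hB : B.Nonempty := by
    rw [← card_pos]
    have : 0 < n ^ d := by positivity
    rcases Nat.eq_zero_or_pos #B with h0 | h0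
    · rw [h0] at h; omega
    · exact h0
  let L : Fin d → (Fin d → Fin n) → Prop := fun j x => ∃ y ∈ B, y ≠ x ∧ sl j x y
  have h1 : ∀ j, #B ≤ 2 * #(B.filter (L j)) := fun j => by
    have a := card_le_card_of_injOn (s := (B.filter fun x => ¬ L j x) ×ˢ (univ : Finset (Fin n)))
      (t := (univ : Finset (Fin d → Fin n))) (fun p => Function.update p.1 j p.2)
      (fun _ _ => by simp) (fun p hp q hq e => by
        simp only [coe_product, coe_filter, Set.mem_prod, Set.mem_ofPred_eq] at hp hq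
        have e2 : p.2 = q.2 := by simpa using congrFun e j
        have e1 : sl j p.1 q.1 := fun l hl => by simpa [hl] using congrFun e l
        refine Prod.ext ?_ e2
        by_contra hne
        exact hp.1.2 ⟨q.1, hq.1.1, fun h => hne h.symm, e1⟩)
    simp only [card_product, card_univ, Fintype.card_fin, Fintype.card_pi, prod_const] at a
    have b := card_filter_add_card_filter_not (s := B) (L j)
    have : n * (2 * #(B.filter fun x => ¬ L j x)) ≤ n * #B := by nlinarith
    have := Nat.le_of_mul_le_mul_left this hn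
    omega
  have h2 : ∀ x ∈ B, #(univ.filter fun j => L j x) ≤ #(B.filter fun y => adj x y) := fun x _ =>
    card_le_card_of_forall_subsingleton (fun j y => sl j x y)
      (fun j hj => by
        obtain ⟨y, hy, e, s⟩ := (mem_filter.1 hj).2
        exact ⟨y, mem_filter.2 ⟨hy, e.symm, j, s⟩, s⟩)
      (fun y hy i hi j hj => sl_uniq hi.2 hj.2 (mem_filter.1 hy).2.1)
  have h3 : ∑ j, #(B.filter (L j)) = ∑ x ∈ B, #(univ.filter fun j => L j x) := by
    simp only [card_filter]
    exact sum_comm
  have h4 : ∑ x ∈ B, #(univ.filter fun j => L j x) < ∑ _x ∈ B, D :=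
    sum_lt_sum_of_nonempty hB fun x hx => (h2 x hx).trans_lt (hc x hx)
  have h5 : ∑ _j : Fin d, #B ≤ ∑ j, 2 * #(B.filter (L j)) := sum_le_sum fun j _ => h1 j
  rw [← mul_sum, h3] at h5
  simp only [sum_const, card_univ, Fintype.card_fin, smul_eq_mul] at h4 h5
  subst hd
  nlinarith

/-- common non-neighbours -/
noncomputable def nb (J : Finset (Fin d → Fin n)) : Finset (Fin d → Fin n) :=
  univ.filter fun x => ∀ y ∈ J, ¬ adj x y

/-- independence -/
def ind (J : Finset (Fin d → Fin n)) : Prop := ∀ x ∈ J, ∀ y ∈ J, ¬ adj x y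

/-- weight -/
noncomputable def w (z c D : ℕ) (J : Finset (Fin d → Fin n)) : ℕ :=
  if ind J then z ^ #J * c ^ (#(nb J) / D) else 0

theorem wstep (z c D : ℕ) (hd : d = 2 * D) (hn : n = 2 * c) (hc : 0 < c) (hD : 0 < D)
    (J S : Finset (Fin d → Fin n)) (hJ : J ⊆ S) :
    c * ∑ x ∈ univ.filter (· ∉ S), w z c D (insert x J) ≤ 2 * n ^ d * z * w z c D J := by
  let NS := (nb J).filter fun x => #((nb J).filter fun y => adj x y) < D
  have h1 : c * #NS ≤ n ^ d := by
    by_contra h
    obtain ⟨x, hx, h2⟩ := supersat NS D hd (by omega) (by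
      have : n * #NS = 2 * (c * #NS) := by rw [← mul_assoc, ← hn]
      omega)
    have : #(NS.filter fun y => adj x y) ≤ #((nb J).filter fun y => adj x y) :=
      card_le_card (filter_subset_filter (fun y => adj x y) (filter_subset _ _ : NS ⊆ nb J))
    have := (mem_filter.1 hx).2
    omega
  have h2 : ∀ x ∈ univ.filter (· ∉ S), c * w z c D (insert x J) ≤
      z * w z c D J * ((if x ∈ NS then c else 0) + 1) := fun x hx => by
    have hxJ : x ∉ J := fun h => (mem_filter.1 hx).2 (hJ h)
    unfold w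
    by_cases hi : ind (insert x J)
    · have hi' : ind J := fun a ha b hb => hi a (mem_insert_of_mem ha) b (mem_insert_of_mem hb)
      have hxn : x ∈ nb J := mem_filter.2 ⟨mem_univ _, fun y hy =>
        hi x (mem_insert_self _ _) y (mem_insert_of_mem hy)⟩
      have e : nb (insert x J) = (nb J).filter fun y => ¬ adj x y := by
        ext y
        simp only [nb, mem_filter, mem_univ, true_and, mem_insert, forall_eq_or_imp]
        exact ⟨fun h => ⟨h.2, fun a => h.1 a.symm⟩, fun h => ⟨fun a => h.2 a.symm, h.1⟩⟩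
      have b := card_filter_add_card_filter_not (s := nb J) (fun y => adj x y)
      rw [if_pos hi, if_pos hi', card_insert_of_notMem hxJ, e]
      by_cases hN : x ∈ NS
      · rw [if_pos hN]
        have : c ^ (#((nb J).filter fun y => ¬ adj x y) / D) ≤ c ^ (#(nb J) / D) :=
          Nat.pow_le_pow_right hc (Nat.div_le_div_right (by omega))
        calc _ ≤ c * (z ^ (#J + 1) * c ^ (#(nb J) / D)) := by gcongr
          _ ≤ (c + 1) * (z ^ (#J + 1) * c ^ (#(nb J) / D)) := by gcongr; omega
          _ = _ := by ring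
      · rw [if_neg hN]
        have h3 : D ≤ #((nb J).filter fun y => adj x y) := by
          by_contra h
          exact hN (mem_filter.2 ⟨hxn, by omega⟩)
        have : c ^ (#((nb J).filter fun y => ¬ adj x y) / D + 1) ≤ c ^ (#(nb J) / D) := by
          refine Nat.pow_le_pow_right hc ?_
          rw [← Nat.add_div_right _ hD]
          exact Nat.div_le_div_right (by omega)
        calc _ = z ^ (#J + 1) * c ^ (#((nb J).filter fun y => ¬ adj x y) / D + 1) := by ring
          _ ≤ z ^ (#J + 1) * c ^ (#(nb J) / D) := by gcongr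
          _ = _ := by ring
    · rw [if_neg hi]
      simp
  have h3 : ∑ x : Fin d → Fin n, ((if x ∈ NS then c else 0) + 1) ≤ 2 * n ^ d := by
    rw [sum_add_distrib, sum_ite_mem, univ_inter]
    simp only [sum_const, smul_eq_mul, card_univ, Fintype.card_pi, Fintype.card_fin, prod_const]
    nlinarith
  rw [mul_sum]
  calc _ ≤ _ := sum_le_sum h2
    _ ≤ ∑ x, z * w z c D J * ((if x ∈ NS then c else 0) + 1) :=
        sum_le_sum_of_subset (subset_univ _)
    _ ≤ z * w z c D J * (2 * n ^ d) := by rw [← mul_sum]; gcongr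
    _ = _ := by ring

/-- at most two points on every axis-parallel line -/
def thin (S : Finset (Fin d → Fin n)) : Prop :=
  ∀ j, ∀ a ∈ S, ∀ b ∈ S, ∀ c ∈ S, a ≠ b → a ≠ c → b ≠ c → ¬ (sl j a b ∧ sl j a c)

theorem grow (z D Δ M : ℕ) (hd : d = 2 * D) (hn : n = 2 * (8 * z)) (hz : 0 < z) (hD : 0 < D)
    (hΔ : 0 < Δ) (h1 : 4 * (M * (d * n)) ≤ n ^ d * Δ) (h2 : 4 * (M * (1 + n * Δ)) ≤ n ^ d)
    (t : ℕ) (ht : t ≤ M) :
    ∃ S B : Finset (Fin d → Fin n), #S = t ∧ thin S ∧ S ⊆ B ∧
      (∀ x j, ∀ s ∈ S, ∀ s' ∈ S, s ≠ s' → sl j x s → sl j x s' → x ∈ B) ∧ #B ≤ t * (1 + n * Δ) ∧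
      ∑ J ∈ S.powerset, w z (8 * z) D J ≤ 2 ^ t * (8 * z) ^ (n ^ d / D) := by
  induction t with
  | zero =>
    refine ⟨∅, ∅, rfl, by simp [thin], by simp, by simp, by simp, ?_⟩
    simp [w, ind, nb]
  | succ t ih =>
    obtain ⟨S, B, a1, a2, a3, a4, a5, a6⟩ := ih (by omega)
    set Φ := ∑ J ∈ S.powerset, w z (8 * z) D J with hΦ
    have hN : 0 < n ^ d := by have : 0 < n := by omega
                              positivity
    have hp : 0 < Φ := by
      refine lt_of_lt_of_le ?_ (single_le_sum (f := w z (8 * z) D) (fun _ _ => Nat.zero_le _)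
        (empty_mem_powerset S))
      simp only [w, ind, notMem_empty, false_imp_iff, implies_true, if_true]
      positivity
    let inc : (Fin d → Fin n) → ℕ := fun x => ∑ J ∈ S.powerset, w z (8 * z) D (insert x J)
    let B1 := (univ.filter (· ∉ S)).filter fun x => Φ < inc x
    let B2 := univ.filter fun x => Δ < #(S.filter fun y => adj x y)
    have b1 : 4 * #B1 ≤ n ^ d := by
      have c1 : #B1 * Φ ≤ ∑ x ∈ univ.filter (· ∉ S), inc x := by
        calc _ = ∑ _x ∈ B1, Φ := by simp
          _ ≤ ∑ x ∈ B1, inc x := sum_le_sum fun x hx => (mem_filter.1 hx).2.le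
          _ ≤ _ := sum_le_sum_of_subset (filter_subset _ _)
      have c2 : (8 * z) * ∑ x ∈ univ.filter (· ∉ S), inc x ≤ 2 * n ^ d * z * Φ := by
        rw [sum_comm, mul_sum, hΦ, mul_sum]
        exact sum_le_sum fun J hJ => wstep z _ D hd hn (by omega) hD J S (mem_powerset.1 hJ)
      have c3 : (2 * z * Φ) * (4 * #B1) ≤ (2 * z * Φ) * n ^ d := by nlinarith
      exact Nat.le_of_mul_le_mul_left c3 (by positivity)
    have b2 : 4 * #B2 ≤ n ^ d := by
      have c1 : #B2 * Δ ≤ t * (d * n) := by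
        calc _ = ∑ _x ∈ B2, Δ := by simp
          _ ≤ ∑ x ∈ B2, #(S.filter fun y => adj x y) :=
              sum_le_sum fun x hx => (mem_filter.1 hx).2.le
          _ ≤ ∑ x, #(S.filter fun y => adj x y) := sum_le_sum_of_subset (subset_univ _)
          _ = ∑ y ∈ S, #(univ.filter fun x => adj x y) := by
              simp only [card_filter]
              exact sum_comm
          _ ≤ ∑ _y ∈ S, d * n := sum_le_sum fun y _ => deg_le y
          _ = _ := by simp [a1]
      have c2 : t * (d * n) ≤ M * (d * n) := by gcongr; omega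
      have c3 : (4 * #B2) * Δ ≤ n ^ d * Δ := by nlinarith
      exact Nat.le_of_mul_le_mul_right c3 hΔ
    have b3 : 4 * #B ≤ n ^ d := by
      have : t * (1 + n * Δ) ≤ M * (1 + n * Δ) := by gcongr; omega
      omega
    obtain ⟨x, -, hx⟩ := exists_mem_notMem_of_card_lt_card (s := B ∪ B1 ∪ B2) (t := univ) (by
      have := card_union_le (B ∪ B1) B2
      have := card_union_le B B1
      simp only [card_univ, Fintype.card_pi, Fintype.card_fin, prod_const]
      omega)
    simp only [mem_union, not_or] at hx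
    obtain ⟨⟨x1, x2⟩, x3⟩ := hx
    have xS : x ∉ S := fun h => x1 (a3 h)
    have x2' : inc x ≤ Φ := by
      by_contra h
      exact x2 (mem_filter.2 ⟨mem_filter.2 ⟨mem_univ _, xS⟩, by omega⟩)
    have x3' : #(S.filter fun y => adj x y) ≤ Δ := by
      by_contra h
      exact x3 (mem_filter.2 ⟨mem_univ _, by omega⟩)
    let E := (S.filter fun y => adj x y).biUnion fun y =>
      univ.filter fun u => ∃ j, sl j u x ∧ sl j u y
    have hE : #E ≤ Δ * n := by
      refine card_biUnion_le.trans ?_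
      calc _ ≤ ∑ _y ∈ S.filter fun y => adj x y, n := sum_le_sum fun y hy => by
            obtain ⟨e, j, hj⟩ := (mem_filter.1 hy).2
            refine le_trans (card_le_card fun u hu => ?_) (line_card j x)
            obtain ⟨i, u1, u2⟩ := (mem_filter.1 hu).2
            exact mem_filter.2 ⟨mem_univ _, sl_uniq (u1.symm.trans u2) hj e ▸ u1⟩
        _ ≤ _ := by simp only [sum_const, smul_eq_mul]; gcongr
    have mE : ∀ u j, ∀ s ∈ S, sl j u x → sl j u s → u ∈ E := fun u j s hs u1 u2 =>
      mem_biUnion.2 ⟨s, mem_filter.2 ⟨hs, fun e => xS (e ▸ hs), j, u1.symm.trans u2⟩,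
        mem_filter.2 ⟨mem_univ _, j, u1, u2⟩⟩
    refine ⟨insert x S, insert x (B ∪ E), by rw [card_insert_of_notMem xS, a1], ?_,
      insert_subset_insert _ (a3.trans subset_union_left), ?_, ?_, ?_⟩
    · rintro j a ha b hb c hc ab ac bc ⟨s1, s2⟩
      rcases mem_insert.1 ha with rfl | ha' <;> rcases mem_insert.1 hb with rfl | hb' <;>
        rcases mem_insert.1 hc with rfl | hc'
      · exact ab rfl
      · exact ab rfl
      · exact ac rfl
      · exact x1 (a4 _ j b hb' c hc' bc s1 s2)
      · exact bc rfl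
      · exact x1 (a4 _ j a ha' c hc' ac s1.symm (s1.symm.trans s2))
      · exact x1 (a4 _ j a ha' b hb' ab s2.symm (s2.symm.trans s1))
      · exact a2 j a ha' b hb' c hc' ab ac bc ⟨s1, s2⟩
    · intro u j s hs s' hs' e u1 u2
      refine mem_insert_of_mem (mem_union.2 ?_)
      rcases mem_insert.1 hs with rfl | h <;> rcases mem_insert.1 hs' with rfl | h'
      · exact absurd rfl e
      · exact Or.inr (mE u j s' h' u1 u2)
      · exact Or.inr (mE u j s h u2 u1)
      · exact Or.inl (a4 u j s h s' h' e u1 u2)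
    · have := card_insert_le x (B ∪ E)
      have := card_union_le B E
      nlinarith
    · rw [sum_powerset_insert xS]
      change Φ + inc x ≤ _
      rw [pow_succ]
      nlinarith

theorem core (k : ℕ) : ∃ (d n : ℕ) (S : Finset (Fin d → Fin n)), thin S ∧
    ∀ f : (Fin d → Fin n) → Fin k, ∃ x ∈ S, ∃ y ∈ S, adj x y ∧ f x = f y := by
  obtain ⟨a, ha⟩ : ∃ a, a = 2 * k + 1 := ⟨_, rfl⟩
  obtain ⟨n, hn⟩ : ∃ n, n = 2 * (8 * 2 ^ a) := ⟨_, rfl⟩
  obtain ⟨Δ, hΔ⟩ : ∃ Δ, Δ = 8 * (a + 3) * n := ⟨_, rfl⟩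
  obtain ⟨D, hD⟩ : ∃ D, D = 4 * (a + 3) * (1 + n * Δ) := ⟨_, rfl⟩
  have n2 : 2 ≤ n := by have := Nat.one_le_two_pow (n := a); omega
  have D0 : 0 < D := by rw [hD]; positivity
  obtain ⟨Q, hQ⟩ : ∃ Q, Q = n ^ (2 * D) / D := ⟨_, rfl⟩
  have q1 : Q * D ≤ n ^ (2 * D) := hQ ▸ Nat.div_mul_le_self _ _
  have q0 : 0 < Q := by
    rw [hQ]
    refine Nat.div_pos ?_ D0
    calc D ≤ 2 * D := by omega
      _ ≤ 2 ^ (2 * D) := Nat.lt_two_pow_self.le
      _ ≤ _ := Nat.pow_le_pow_left n2 _
  obtain ⟨S, B, a1, a2, -, -, -, a6⟩ := grow (d := 2 * D) (n := n) (2 ^ a) D Δ ((a + 3) * Q) rfl hn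
    (by positivity) D0 (by rw [hΔ]; positivity)
    (by
      calc _ = Q * D * Δ := by rw [hΔ]; ring
        _ ≤ _ := by gcongr)
    (by
      calc _ = Q * D := by rw [hD]; ring
        _ ≤ _ := q1) _ le_rfl
  refine ⟨_, _, S, a2, fun f => ?_⟩
  by_contra hc
  push Not at hc
  have h1 : ∀ i, a * #(S.filter fun x => f x = i) ≤ 2 * ((a + 3) * Q) := fun i => by
    have hi : ind (S.filter fun x => f x = i) := fun x hx y hy h =>
      hc x (mem_filter.1 hx).1 y (mem_filter.1 hy).1 h
        ((mem_filter.1 hx).2.trans (mem_filter.1 hy).2.symm)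
    have := (single_le_sum (f := w (2 ^ a) (8 * 2 ^ a) D) (fun _ _ => Nat.zero_le _)
      (mem_powerset.2 (filter_subset (fun x => f x = i) S))).trans a6
    rw [w, if_pos hi, ← hQ] at this
    have e : 2 ^ ((a + 3) * Q) * (8 * 2 ^ a) ^ Q = 2 ^ (2 * ((a + 3) * Q)) := by
      rw [show 8 * 2 ^ a = 2 ^ (a + 3) by ring, ← pow_mul, ← pow_add, two_mul]
    rw [e, ← pow_mul] at this
    exact (Nat.pow_le_pow_iff_right (by norm_num)).1
      ((Nat.le_mul_of_pos_right _ (by positivity)).trans this)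
  have h2 := sum_le_sum fun i (_ : i ∈ (univ : Finset (Fin k))) => h1 i
  rw [← mul_sum, ← card_eq_sum_card_fiberwise (fun x _ => mem_univ (f x)), a1] at h2
  simp only [sum_const, card_univ, Fintype.card_fin, smul_eq_mul] at h2
  have : 0 < (a + 3) * Q := by positivity
  nlinarith

end Pool.Agent.H.MP_23196e_co.A
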