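import Pool.Agent.H.MP_23196e_co.A

set_option autoImplicit false

namespace Pool.Agent.H.MP_23196e_co.B

open Finset Classical MvPolynomial Pool.Agent.H.MP_23196e_co.A

section
variable {R : Type} [CommRing R]

/-- squared distance -/
def nq (a b : R × R) : R := (b.1 - a.1) ^ 2 + (b.2 - a.2) ^ 2

/-- collinearity determinant -/
def col (a b c : R × R) : R := (b.1 - a.1) * (c.2 - a.2) - (b.2 - a.2) * (c.1 - a.1)

/-- concyclicity determinant -/
def cyc (a b c e : R × R) : R := nq a b * col a c e - nq a c * col a b e + nq a e * col a b c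
end

/-- evaluation of a point with polynomial coordinates -/
noncomputable def ev {σ : Type} (η : σ → ℝ) (p : MvPolynomial σ ℝ × MvPolynomial σ ℝ) : ℝ × ℝ :=
  (eval η p.1, eval η p.2)

theorem avoid {σ : Type} (T : Set (MvPolynomial σ ℝ)) (hT : T.Finite) :
    ∃ θ : σ → ℤ, ∀ p ∈ T, ∀ η, eval η p ≠ 0 → eval (fun s => (θ s : ℝ)) p ≠ 0 := by
  by_contra hc
  push Not at hc
  have h0 : ∏ p ∈ hT.toFinset.filter (· ≠ 0), p ≠ 0 :=
    prod_ne_zero_iff.2 fun p hp => (mem_filter.1 hp).2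
  refine h0 (funext_set (fun _ => Set.range (Int.cast : ℤ → ℝ))
    (fun _ => Set.infinite_range_of_injective Int.cast_injective) fun x hx => ?_)
  choose θ hθ using fun s => hx s (Set.mem_univ s)
  obtain ⟨p, hp, η, h1, h2⟩ := hc θ
  rw [map_prod, map_zero]
  refine prod_eq_zero (i := p) (mem_filter.2 ⟨hT.mem_toFinset.2 hp, ?_⟩) ?_
  · rintro rfl
    simp at h1
  · rw [← funext hθ]
    exact h2

theorem generic {σ V : Type} [Finite V] (P : V → MvPolynomial σ ℝ × MvPolynomial σ ℝ) :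
    ∃ θ : σ → ℤ, ∀ Q : V → ℝ × ℝ, Q = (fun v => ev (fun s => (θ s : ℝ)) (P v)) → ∀ η : σ → ℝ,
      (∀ a b, nq (ev η (P a)) (ev η (P b)) ≠ 0 → nq (Q a) (Q b) ≠ 0) ∧
      (∀ a b c, col (ev η (P a)) (ev η (P b)) (ev η (P c)) ≠ 0 → col (Q a) (Q b) (Q c) ≠ 0) ∧
      (∀ a b c e, cyc (ev η (P a)) (ev η (P b)) (ev η (P c)) (ev η (P e)) ≠ 0 →
        cyc (Q a) (Q b) (Q c) (Q e) ≠ 0) := by
  obtain ⟨θ, h⟩ := avoid ((Set.range fun x : V × V => nq (P x.1) (P x.2)) ∪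
    (Set.range fun x : V × V × V => col (P x.1) (P x.2.1) (P x.2.2)) ∪
    (Set.range fun x : V × V × V × V => cyc (P x.1) (P x.2.1) (P x.2.2.1) (P x.2.2.2)))
    (((Set.finite_range _).union (Set.finite_range _)).union (Set.finite_range _))
  refine ⟨θ, ?_⟩
  rintro Q rfl η
  refine ⟨fun a b hh => ?_, fun a b c hh => ?_, fun a b c e hh => ?_⟩
  · have := h _ (Or.inl (Or.inl ⟨(a, b), rfl⟩)) η
    simp only [nq, map_add, map_pow, map_sub] at this
    exact this hh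
  · have := h _ (Or.inl (Or.inr ⟨(a, b, c), rfl⟩)) η
    simp only [col, map_mul, map_sub] at this
    exact this hh
  · have := h _ (Or.inr ⟨(a, b, c, e), rfl⟩) η
    simp only [cyc, nq, col, map_add, map_pow, map_sub, map_mul] at this
    exact this hh

/-- general position -/
def GP (A : Set (ℝ × ℝ)) : Prop :=
  (∀ a ∈ A, ∀ b ∈ A, ∀ c ∈ A, a ≠ b → a ≠ c → b ≠ c → col a b c ≠ 0) ∧
  ∀ a ∈ A, ∀ b ∈ A, ∀ c ∈ A, ∀ e ∈ A, a ≠ b → a ≠ c → b ≠ c → a ≠ e → b ≠ e → c ≠ e →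
    cyc a b c e ≠ 0

/-- not colourable with k colours -/
def Hard (k : ℕ) (A : Set (ℝ × ℝ)) : Prop :=
  ∀ f : ℝ × ℝ → Fin k, ∃ x ∈ A, ∃ y ∈ A, x ≠ y ∧ (∃ m : ℤ, nq x y = (m : ℝ) ^ 2) ∧ f x = f y

variable {d n : ℕ}

/-- projection of the grid -/
def pr (μ : Fin d → Fin n → ℝ) (v : Fin d → ℝ × ℝ) (x : Fin d → Fin n) : ℝ × ℝ :=
  (∑ j, μ j (x j) * (v j).1, ∑ j, μ j (x j) * (v j).2)

/-- universal projection -/
noncomputable def up (x : Fin d → Fin n) :
    MvPolynomial ((Fin d × Fin n) ⊕ (Fin d × Bool)) ℝ ×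
      MvPolynomial ((Fin d × Fin n) ⊕ (Fin d × Bool)) ℝ :=
  (∑ j, X (Sum.inl (j, x j)) * (X (Sum.inr (j, true)) ^ 2 - X (Sum.inr (j, false)) ^ 2),
   ∑ j, X (Sum.inl (j, x j)) * (X (Sum.inr (j, true)) * X (Sum.inr (j, false)) * 2))

theorem ev_up (η : (Fin d × Fin n) ⊕ (Fin d × Bool) → ℝ) (x : Fin d → Fin n) :
    ev η (up x) = pr (fun j t => η (Sum.inl (j, t))) (fun j =>
      (η (Sum.inr (j, true)) ^ 2 - η (Sum.inr (j, false)) ^ 2,
        η (Sum.inr (j, true)) * η (Sum.inr (j, false)) * 2)) x := by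
  simp [ev, up, pr]

theorem real (μ : Fin d → Fin n → ℝ) (v : Fin d → ℝ × ℝ) : ∃ η, ∀ x, ev η (up x) = pr μ v x := by
  have : ∀ j, ∃ z : ℂ, z ^ 2 = ⟨(v j).1, (v j).2⟩ := fun j =>
    IsAlgClosed.exists_pow_nat_eq _ (by norm_num)
  choose z hz using this
  refine ⟨Sum.elim (fun p => μ p.1 p.2) fun p => if p.2 then (z p.1).re else (z p.1).im,
    fun x => ?_⟩
  rw [ev_up]
  congr 1
  funext j
  have h1 := congrArg Complex.re (hz j)
  have h2 := congrArg Complex.im (hz j)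
  simp only [pow_two, Complex.mul_re, Complex.mul_im] at h1 h2
  refine Prod.ext ?_ ?_ <;> simp <;> linarith

theorem pr_two (j l : Fin d) (h : j ≠ l) (α β : Fin n → ℝ) : ∃ μ v, ∀ x : Fin d → Fin n,
    pr μ v x = (α (x j), β (x l)) := by
  refine ⟨fun i => if i = j then α else β,
    fun i => (if i = j then 1 else 0, if i = l then 1 else 0), fun x => ?_⟩
  simp [pr, h.symm]

theorem tri (a b c : Fin d → Fin n) (ab : a ≠ b) (ac : a ≠ c) (bc : b ≠ c)
    (h : ∀ j, ¬ (sl j a b ∧ sl j a c)) : ∃ μ v, col (pr μ v a) (pr μ v b) (pr μ v c) ≠ 0 := by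
  have key : ∀ b c : Fin d → Fin n, (∃ j l, j ≠ l ∧ b j ≠ a j ∧ b j ≠ c j ∧ c l ≠ a l) →
      ∃ μ v, col (pr μ v a) (pr μ v b) (pr μ v c) ≠ 0 := by
    rintro b c ⟨j, l, h0, h1, h2, h3⟩
    obtain ⟨μ, v, e⟩ := pr_two j l h0 (fun t => if t = b j then 1 else 0)
      (fun t => if t = a l then 0 else 1)
    refine ⟨μ, v, ?_⟩
    simp [e, col, h1.symm, h2.symm, h3]
  by_cases h1 : ∃ j l, j ≠ l ∧ b j ≠ a j ∧ b j ≠ c j ∧ c l ≠ a l
  · exact key b c h1
  by_cases h2 : ∃ j l, j ≠ l ∧ c j ≠ a j ∧ c j ≠ b j ∧ b l ≠ a l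
  · obtain ⟨μ, v, e⟩ := key c b h2
    exact ⟨μ, v, fun h' => e (by unfold col at h' ⊢; linarith)⟩
  exfalso
  push Not at h1 h2
  obtain ⟨i, hi⟩ := Function.ne_iff.1 bc
  obtain ⟨p, hp⟩ := Function.ne_iff.1 ab
  obtain ⟨q, hq⟩ := Function.ne_iff.1 ac
  have := h i
  unfold sl at this
  grind

theorem block (k : ℕ) : ∃ C : Finset (ℝ × ℝ), GP C ∧ Hard k C := by
  obtain ⟨d, n, S, h1, h2⟩ := core k
  obtain ⟨θ, h⟩ := generic (up (d := d) (n := n))
  obtain ⟨Q, hQ⟩ : ∃ Q, Q = fun v : Fin d → Fin n => ev (fun s => (θ s : ℝ)) (up v) := ⟨_, rfl⟩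
  have h := h Q hQ
  have t3 : ∀ a ∈ S, ∀ b ∈ S, ∀ c ∈ S, a ≠ b → a ≠ c → b ≠ c → col (Q a) (Q b) (Q c) ≠ 0 := by
    intro a ha b hb c hc ab ac bc
    obtain ⟨μ, v, e⟩ := tri a b c ab ac bc fun j => h1 j a ha b hb c hc ab ac bc
    obtain ⟨η, hη⟩ := real μ v
    exact (h η).2.1 a b c (by rwa [hη, hη, hη])
  have lin : ∀ s r : ℝ, ∃ η, ∀ x, ev η (up x) = (s * (Q x).1 + r * (Q x).2, (Q x).2) := by
    intro s r
    simp only [hQ, ev_up]
    generalize (fun j t => _ : Fin d → Fin n → ℝ) = μ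
    generalize (fun j => _ : Fin d → ℝ × ℝ) = v
    obtain ⟨η, hη⟩ := real μ fun j => (s * (v j).1 + r * (v j).2, (v j).2)
    refine ⟨η, fun x => ?_⟩
    rw [← ev_up, hη]
    simp only [pr, mul_sum, ← sum_add_distrib]
    congr 1
    exact sum_congr rfl fun _ _ => by ring
  refine ⟨S.image Q, ⟨?_, ?_⟩, fun f => ?_⟩
  · simp only [coe_image, Set.forall_mem_image]
    intro a ha b hb c hc ab ac bc
    exact t3 a ha b hb c hc (fun e => ab (e ▸ rfl)) (fun e => ac (e ▸ rfl)) fun e => bc (e ▸ rfl)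
  · simp only [coe_image, Set.forall_mem_image]
    intro a ha b hb c hc e he ab ac bc ae be ce h0
    have ab : a ≠ b := fun e => ab (e ▸ rfl)
    have ac : a ≠ c := fun e => ac (e ▸ rfl)
    have bc : b ≠ c := fun e => bc (e ▸ rfl)
    have ae : a ≠ e := fun e => ae (e ▸ rfl)
    have be : b ≠ e := fun e => be (e ▸ rfl)
    have ce : c ≠ e := fun e => ce (e ▸ rfl)
    have z : ∀ s r : ℝ, cyc (s * (Q a).1 + r * (Q a).2, (Q a).2) (s * (Q b).1 + r * (Q b).2, (Q b).2)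
        (s * (Q c).1 + r * (Q c).2, (Q c).2) (s * (Q e).1 + r * (Q e).2, (Q e).2) = 0 := by
      intro s r
      obtain ⟨η, hη⟩ := lin s r
      by_contra hh
      exact (h η).2.2 a b c e (by rwa [hη, hη, hη, hη]) h0
    have z1 := z 1 0
    have z2 := z 2 0
    have z3 := z 1 1
    refine mul_ne_zero (mul_ne_zero (t3 a ha b hb c hc ab ac bc) (t3 a ha b hb e he ab ae be))
      (t3 a ha c hc e he ac ae ce) ?_
    generalize Q a = A, Q b = B, Q c = C, Q e = E at *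
    simp only [cyc, nq, col] at z1 z2 z3 ⊢
    linear_combination
      ((B.2 - A.2) * (C.2 - A.2) * (-1 / 3) + (B.1 - A.1) * (C.1 - A.1) * (4 / 3) -
        ((B.1 - A.1) * (C.2 - A.2) + (B.2 - A.2) * (C.1 - A.1)) * (-7 / 6)) * z1 +
      ((B.2 - A.2) * (C.2 - A.2) * (1 / 6) + (B.1 - A.1) * (C.1 - A.1) * (-1 / 6) -
        ((B.1 - A.1) * (C.2 - A.2) + (B.2 - A.2) * (C.1 - A.1)) * (1 / 12)) * z2 -
      ((B.1 - A.1) * (C.2 - A.2) + (B.2 - A.2) * (C.1 - A.1)) * (1 / 2) * z3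
  · obtain ⟨x, hx, y, hy, ⟨e, j, hj⟩, hf⟩ := h2 fun x => f (Q x)
    refine ⟨Q x, mem_image_of_mem _ hx, Q y, mem_image_of_mem _ hy, fun e' => ?_, ?_, hf⟩
    · obtain ⟨i, hi⟩ := Function.ne_iff.1 e
      obtain ⟨η, hη⟩ := real (fun _ t => if t = y i then 1 else 0)
        fun l => (if l = i then 1 else 0, 0)
      refine (h η).1 x y ?_ (by rw [e']; simp [nq])
      rw [hη, hη]
      simp [nq, pr, hi]
    · refine ⟨(θ (Sum.inl (j, y j)) - θ (Sum.inl (j, x j))) *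
        (θ (Sum.inr (j, true)) ^ 2 + θ (Sum.inr (j, false)) ^ 2), ?_⟩
      simp only [hQ, ev_up, nq, pr, ← sum_sub_distrib]
      rw [sum_eq_single j (fun l _ hl => by rw [hj l hl, sub_self]) (by simp),
        sum_eq_single j (fun l _ hl => by rw [hj l hl, sub_self]) (by simp)]
      push_cast
      ring

/-- conditional shift -/
def sh (ε : Bool) (s t : ℝ) (p : ℝ × ℝ) : ℝ × ℝ :=
  (p.1 + (if ε then s else 0), p.2 + (if ε then t else 0))

theorem nq_ne {a b : ℝ × ℝ} (h : a ≠ b) : nq a b ≠ 0 := fun e => by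
  unfold nq at e
  exact h (Prod.ext (by nlinarith [sq_nonneg (b.1 - a.1), sq_nonneg (b.2 - a.2)])
    (by nlinarith [sq_nonneg (b.1 - a.1), sq_nonneg (b.2 - a.2)]))

theorem uw (a b c e : ℝ × ℝ) (h1 : a ≠ b) (h2 : c ≠ e)
    (r : (b.1 - a.1) * (e.1 - c.1) - (b.2 - a.2) * (e.2 - c.2) = 0)
    (i : (b.1 - a.1) * (e.2 - c.2) + (b.2 - a.2) * (e.1 - c.1) = 0) : False :=
  mul_ne_zero (nq_ne h1) (nq_ne h2) (by
    unfold nq
    linear_combination ((b.1 - a.1) * (e.1 - c.1) - (b.2 - a.2) * (e.2 - c.2)) * r +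
      ((b.1 - a.1) * (e.2 - c.2) + (b.2 - a.2) * (e.1 - c.1)) * i)

theorem wit3 (x y z : Bool) (a b c : ℝ × ℝ) (ab : x = y → a ≠ b) (ac : x = z → a ≠ c)
    (bc : y = z → b ≠ c) (abc : x = y → x = z → col a b c ≠ 0) :
    ∃ s t, col (sh x s t a) (sh y s t b) (sh z s t c) ≠ 0 := by
  by_contra h
  push Not at h
  have h0 := h 0 0
  have h1 := h 1 0
  have h2 := h 0 1
  clear h
  unfold col at abc
  cases x <;> cases y <;> cases z <;>
    simp only [col, sh, if_true, Bool.false_eq_true, if_false] at h0 h1 h2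
  · exact abc rfl rfl (by linarith)
  · exact ab rfl (Prod.ext (by linarith) (by linarith))
  · exact ac rfl (Prod.ext (by linarith) (by linarith))
  · exact bc rfl (Prod.ext (by linarith) (by linarith))
  · exact bc rfl (Prod.ext (by linarith) (by linarith))
  · exact ac rfl (Prod.ext (by linarith) (by linarith))
  · exact ab rfl (Prod.ext (by linarith) (by linarith))
  · exact abc rfl rfl (by linarith)

theorem wit4 (x y z u : Bool) (a b c e : ℝ × ℝ) (ab : x = y → a ≠ b) (ac : x = z → a ≠ c)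
    (bc : y = z → b ≠ c) (ae : x = u → a ≠ e) (be : y = u → b ≠ e) (ce : z = u → c ≠ e)
    (abc : x = y → x = z → col a b c ≠ 0) (abe : x = y → x = u → col a b e ≠ 0)
    (ace : x = z → x = u → col a c e ≠ 0) (bce : y = z → y = u → col b c e ≠ 0)
    (q : x = y → x = z → x = u → cyc a b c e ≠ 0) :
    ∃ s t, cyc (sh x s t a) (sh y s t b) (sh z s t c) (sh u s t e) ≠ 0 := by
  by_contra h
  push Not at h
  have h0 := h 0 0
  have h1 := h 1 0
  have h2 := h (-1) 0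
  have h3 := h 1 1
  have h4 := h (-1) (-1)
  clear h
  unfold cyc nq at q
  unfold col at abc abe ace bce q
  cases x <;> cases y <;> cases z <;> cases u <;>
    simp only [cyc, nq, col, sh, if_true, Bool.false_eq_true, if_false] at h0 h1 h2 h3 h4
  · exact q rfl rfl rfl (by linarith)
  · exact abc rfl rfl (by linarith)
  · exact abe rfl rfl (by linarith)
  · exact uw a b c e (ab rfl) (ce rfl) (by linarith) (by linarith)
  · exact ace rfl rfl (by linarith)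
  · exact uw a c b e (ac rfl) (be rfl) (by linarith) (by linarith)
  · exact uw a e b c (ae rfl) (bc rfl) (by linarith) (by linarith)
  · exact bce rfl rfl (by linarith)
  · exact bce rfl rfl (by linarith)
  · exact uw a e b c (ae rfl) (bc rfl) (by linarith) (by linarith)
  · exact uw a c b e (ac rfl) (be rfl) (by linarith) (by linarith)
  · exact ace rfl rfl (by linarith)
  · exact uw a b c e (ab rfl) (ce rfl) (by linarith) (by linarith)
  · exact abe rfl rfl (by linarith)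
  · exact abc rfl rfl (by linarith)
  · exact q rfl rfl rfl (by linarith)

theorem extend (B : Finset (ℝ × ℝ)) (hB : GP B) (k : ℕ) :
    ∃ B' : Finset (ℝ × ℝ), B ⊆ B' ∧ GP B' ∧ Hard k B' := by
  obtain ⟨D, hD, hk⟩ := block k
  let K : Bool → Finset (ℝ × ℝ) := fun ε => if ε then D else B
  have hK : ∀ ε, GP (K ε) := fun ε => by cases ε <;> assumption
  let V := (ε : Bool) × ↥(K ε)
  let P : V → MvPolynomial Bool ℝ × MvPolynomial Bool ℝ := fun v =>
    (C v.2.1.1 + (if v.1 then X true else 0), C v.2.1.2 + (if v.1 then X false else 0))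
  have hP : ∀ η v, ev η (P v) = sh v.1 (η true) (η false) v.2.1 := by
    rintro η ⟨ε, p⟩
    cases ε <;> simp [ev, P, sh]
  obtain ⟨θ, h⟩ := generic P
  have h := h _ rfl
  simp only [hP] at h
  set Q : V → ℝ × ℝ := fun v => sh v.1 (θ true) (θ false) v.2.1 with hQ
  have ne : ∀ a b : V, Q a ≠ Q b → a.1 = b.1 → a.2.1 ≠ b.2.1 := fun a b h1 h2 h3 =>
    h1 (by simp only [hQ]; rw [h3]; congr 1)
  have mem : ∀ (a b : V), a.1 = b.1 → b.2.1 ∈ (K a.1 : Set (ℝ × ℝ)) := fun a b e => by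
    rw [e]
    exact b.2.2
  have c3 : ∀ a b c : V, Q a ≠ Q b → Q a ≠ Q c → Q b ≠ Q c → a.1 = b.1 → a.1 = c.1 →
      col a.2.1 b.2.1 c.2.1 ≠ 0 := fun a b c ab ac bc e1 e2 =>
    (hK a.1).1 _ (mem a a rfl) _ (mem a b e1) _ (mem a c e2) (ne a b ab e1) (ne a c ac e2)
      (ne b c bc (e1.symm.trans e2))
  refine ⟨univ.image Q, fun p hp => mem_image.2 ⟨⟨false, p, hp⟩, mem_univ _, by simp [hQ, sh]⟩,
    ⟨?_, ?_⟩, fun f => ?_⟩
  · simp only [coe_image, Set.forall_mem_image]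
    intro a _ b _ c _ ab ac bc
    obtain ⟨s, t, e⟩ := wit3 a.1 b.1 c.1 a.2.1 b.2.1 c.2.1 (ne a b ab) (ne a c ac) (ne b c bc)
      (c3 a b c ab ac bc)
    exact (h fun i => if i then s else t).2.1 a b c e
  · simp only [coe_image, Set.forall_mem_image]
    intro a _ b _ c _ e _ ab ac bc ae be ce
    obtain ⟨s, t, e'⟩ := wit4 a.1 b.1 c.1 e.1 a.2.1 b.2.1 c.2.1 e.2.1 (ne a b ab) (ne a c ac)
      (ne b c bc) (ne a e ae) (ne b e be) (ne c e ce) (c3 a b c ab ac bc) (c3 a b e ab ae be)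
      (c3 a c e ac ae ce) (c3 b c e bc be ce) fun e1 e2 e3 =>
      (hK a.1).2 _ (mem a a rfl) _ (mem a b e1) _ (mem a c e2) _ (mem a e e3) (ne a b ab e1)
        (ne a c ac e2) (ne b c bc (e1.symm.trans e2)) (ne a e ae e3)
        (ne b e be (e1.symm.trans e3)) (ne c e ce (e2.symm.trans e3))
    exact (h fun i => if i then s else t).2.2 a b c e e'
  · obtain ⟨x, hx, y, hy, e, ⟨m, hm⟩, hf⟩ := hk fun p => f (sh true (θ true) (θ false) p)
    refine ⟨Q ⟨true, x, hx⟩, mem_image_of_mem _ (mem_univ _), Q ⟨true, y, hy⟩,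
      mem_image_of_mem _ (mem_univ _), fun e' => e ?_, ⟨m, ?_⟩, hf⟩
    · simp only [hQ, sh, Prod.mk.injEq, add_left_inj] at e'
      exact Prod.ext e'.1 e'.2
    · rw [← hm]
      simp [hQ, sh, nq]

theorem main : ∃ A : Set (ℝ × ℝ), GP A ∧ ∀ k, Hard k A := by
  choose F h1 h2 h3 using extend
  let s : ℕ → {B : Finset (ℝ × ℝ) // GP B} := fun n =>
    Nat.rec ⟨∅, by simp [GP]⟩ (fun k B => ⟨F B.1 B.2 k, h2 _ _ _⟩) n
  have mono : Monotone fun n => (s n).1 := monotone_nat_of_le_succ fun n => h1 _ (s n).2 n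
  refine ⟨⋃ n, (s n).1, ⟨?_, ?_⟩, fun k f => ?_⟩
  · simp only [Set.mem_iUnion, forall_exists_index]
    intro a i ha b j hb c l hc
    exact (s (i + j + l)).2.1 a (mono (by omega) ha) b (mono (by omega) hb) c (mono (by omega) hc)
  · simp only [Set.mem_iUnion, forall_exists_index]
    intro a i ha b j hb c l hc e m he
    exact (s (i + j + l + m)).2.2 a (mono (by omega) ha) b (mono (by omega) hb) c
      (mono (by omega) hc) e (mono (by omega) he)
  · obtain ⟨x, hx, y, hy, h⟩ := h3 _ (s k).2 k f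
    exact ⟨x, Set.mem_iUnion.2 ⟨k + 1, hx⟩, y, Set.mem_iUnion.2 ⟨k + 1, hy⟩, h⟩

end Pool.Agent.H.MP_23196e_co.B
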